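import Mathlib
import Pool.Graph.R_pool_sql_team_seeded_1acbe0a2.Y866.TR.Fin
import Pool.Agent.H534.UT.IsoA

/-!
# Constellations of every shape of primes each of which lies in the middle of a prime-free interval of
# Rankin's size

For every large `X` there are a modulus `W ≤ X ^ (1 / 700)` and a class `b` modulo `W` such that a
proportion of the primes of the class in `(X, 3 X]` is isolated, i.e. at distance at least
`c log X log₂ X log₄ X / (log₃ X)²` from all other primes (library, `iso_count`: the product of nearly all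
primes up to `log X / 1000`, and a covering of Rankin's type).  For all shapes
`1 ≤ a_1, ..., a_k ≤ X ^ (99 / 100)`, without exceptions, and at least `κ' X ^ (1 / 2000)` integers
`D ≤ X ^ (1 / 200)` the primes `p, p + D a_1, ..., p + D a_k` are isolated at the same time for as many `p`
of the class as expected for `k + 1` numbers of the class to be prime, up to a constant; and this holds
inside every set of positive density relative to the primes of the class, for instance for one of the
classes of every colouring of the isolated primes with a bounded number of colours.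

Proof.  The relative multidimensional Szemerédi theorem for shapes of polynomial size of
`Pool.Agent.H534.RS`, for the linear form `b + W X`, uniformly in `W` (`Pool.Agent.H534.UT.clsS`).
-/

set_option autoImplicit false

open Finset Filter

namespace Pool.Agent.Results.MP_7b323f_nt.EveryShapeOfIsolatedPrimes

/-- the function of Rankin -/
noncomputable def rankin (X : ℝ) : ℝ :=
  Real.log X * Real.log (Real.log X) * Real.log (Real.log (Real.log (Real.log X))) /
    Real.log (Real.log (Real.log X)) ^ 2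

open Classical in
/-- the primes `p ≡ b mod W` in `(X, 3 X]` such that no other prime is at distance less than
`c rankin X` from `p` -/
noncomputable def iso (c X : ℝ) (W b : ℕ) : Finset ℕ :=
  (Icc 1 ⌊3 * X⌋₊).filter (fun p => X < p ∧ p ≡ b [MOD W] ∧ p.Prime ∧
    ∀ m : ℕ, m.Prime → m ≠ p → c * rankin X ≤ |(m : ℝ) - p|)

/-- There are `c > 0` and, for every large `X`, a modulus `W ≤ X ^ (1 / 700)` and a class `b` prime to `W`
such that at least `X / (1000 φ(W) log X)` of the primes in `(X, 3 X]` in the class have no other prime at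
distance less than `c log X log₂ X log₄ X / (log₃ X)²`, and such that the following holds for all `k ≥ 1`
and `κ > 0` with some `κ' > 0`, for large `X`: for every set `A` of at least `κ X / (φ(W) log X)` of these
primes and all distinct `1 ≤ a_1, ..., a_k ≤ X ^ (99 / 100)` there are at least `κ' X ^ (1 / 2000)`
multiples `D ≤ X ^ (1 / 200)` of `W` such that for at least `κ' (X / W) (W / (φ(W) log X)) ^ (k + 1)`
elements `p` of `A` all the `p + D a_j` are in `A`. -/
theorem result : ∃ c : ℝ, 0 < c ∧ ∃ W b : ℝ → ℕ,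
    (∀ᶠ X : ℝ in atTop, 1 ≤ W X ∧ (W X : ℝ) ≤ X ^ (1 / 700 : ℝ) ∧ (b X).Coprime (W X) ∧
      1 / 1000 * (X / ((W X).totient * Real.log X)) ≤ (iso c X (W X) (b X)).card) ∧
    ∀ (k : ℕ) (κ : ℝ), 1 ≤ k → 0 < κ → ∃ κ' : ℝ, 0 < κ' ∧ ∀ᶠ X : ℝ in atTop,
      ∀ A ⊆ iso c X (W X) (b X), κ * (X / ((W X).totient * Real.log X)) ≤ A.card →
      ∀ a : Fin k → ℕ, Function.Injective a → (∀ j, 1 ≤ a j ∧ (a j : ℝ) ≤ X ^ (99 / 100 : ℝ)) →
      κ' * X ^ (1 / 2000 : ℝ) ≤ (((Icc 1 ⌊X ^ (1 / 200 : ℝ)⌋₊).filter (fun D => W X ∣ D ∧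
        κ' * (X / W X * (W X / ((W X).totient * Real.log X)) ^ (k + 1)) ≤
          ((A.filter (fun p => ∀ j, p + D * a j ∈ A)).card : ℝ))).card : ℝ) := by
  classical
  obtain ⟨c, hc, h⟩ := Pool.Agent.Y866.TR.iso_count
  obtain ⟨X₀, hX₀⟩ := eventually_atTop.1 h
  have hch : ∀ X : ℝ, ∃ W b : ℕ, X₀ ≤ X → 0 < W ∧ (W : ℝ) ≤ Real.exp (Real.log X / 700) ∧ b.Coprime W ∧
      1 / 1000 * (X / (W.totient * Real.log X)) ≤
        (Pool.Agent.Y866.TR.iso X W b (c * Pool.Agent.Y866.TR.RK X)).card := by
    intro X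
    by_cases hX : X₀ ≤ X
    · obtain ⟨W, b, hW⟩ := hX₀ X hX
      exact ⟨W, b, fun _ => hW⟩
    · exact ⟨0, 0, fun h => absurd h hX⟩
  choose W b hWb using hch
  have hiso : ∀ X : ℝ, 0 ≤ X → iso c X (W X) (b X) =
      Pool.Agent.Y866.TR.iso X (W X) (b X) (c * Pool.Agent.Y866.TR.RK X) := by
    intro X hX
    unfold iso Pool.Agent.Y866.TR.iso Pool.Agent.Y866.TR.cls
    ext p
    simp only [mem_filter, mem_Icc, Nat.floor_lt hX]
    constructor
    · rintro ⟨h1, h2, h3, h4, h5⟩
      exact ⟨⟨h1, h3, h4, h2⟩, h5⟩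
    · rintro ⟨⟨h1, h3, h4, h2⟩, h5⟩
      exact ⟨h1, h2, h3, h4, h5⟩
  refine ⟨c, hc, W, b, ?_, fun k κ hk hκ => ?_⟩
  · filter_upwards [eventually_ge_atTop X₀, eventually_gt_atTop (0 : ℝ)] with X hX hX0
    obtain ⟨h1, h2, h3, h4⟩ := hWb X hX
    rw [hiso X hX0.le]
    refine ⟨h1, h2.trans (le_of_eq ?_), h3, h4⟩
    rw [Real.rpow_def_of_pos hX0]
    congr 1
    ring
  · obtain ⟨κ', hκ', hS⟩ := Pool.Agent.H534.UT.clsS k κ hk hκ
    refine ⟨κ', hκ', ?_⟩
    filter_upwards [hS, eventually_ge_atTop X₀, eventually_gt_atTop (0 : ℝ)] with X hS hX hX0 A hA hAc a ha ha'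
    obtain ⟨h1, h2, h3, h4⟩ := hWb X hX
    refine hS (W X) (b X) h1 h2 h3 A (fun p hp => ?_) hAc a ha ha'
    have h5 := hA hp
    unfold iso at h5
    rw [mem_filter, mem_Icc] at h5
    exact ⟨h5.2.2.2.1, h5.2.1, (Nat.le_floor_iff (by positivity)).1 h5.1.2, h5.2.2.1⟩

end Pool.Agent.Results.MP_7b323f_nt.EveryShapeOfIsolatedPrimes
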