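import Pool.Agent.H526.FR.Cls
import Pool.Agent.H526.IR.Blk

/-!
# Record gaps and clusters of primes with free residues

Let `f(x) = log x (log₂ x)² log₄ x / (log₃ x)²` (iterated logarithms), the order of the largest gaps between
consecutive primes that are known (starting library). All the constructions of large gaps prescribe a residue
class of the gap modulo every prime up to a multiple of `log x`. Here almost all of these classes are free.

For all `m, A, C` there are `K` and `c > 0` such that for every `Z` and all large `X` there is a sparse set `E` of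
exceptional primes with the following property. Consider the primes `q ≤ (log X) / 1000`, `q ∉ E`, with
* `q ≤ exp (log₂ X log₄ X / (50 log₃ X))` (the small primes), or
* `q > log X / (log₂ X) ^ A` (the large primes; for `A ≥ 1` almost all the primes `q ≤ (log X) / 1000`), or
* `q ∈ R`, where `R` is any set with `∑_{q ∈ R} 1 / q ≤ C (log₃ X)² / ((log₂ X)² log₄ X)`,

and choose a class `b(q)` modulo each of them in an arbitrary way. For every `K`-element set `T` of natural numbers
up to `exp (log₂ X log₄ X / (50 log₃ X))` such that no `b(q) + v`, `v ∈ T`, is divisible by `q`, there is a subset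
`H ⊆ T` with at least `m` elements such that at least `X ^ (4 / 5)` integers `n`, `X < n ≤ 4X`, satisfy
* `n ≡ b(q) mod q` for all the primes `q` above, and
* the primes at distance at most `c f(X)` from `n` are exactly the numbers `n + h`, `h ∈ H`.

Method: the coloured Maynard-Tao theorem with repelling weights in an arbitrary class modulo a power of `X`
(`Pool.Agent.Q84.MB.exact_win`) allows `c₁ log X` survivors. New is the choice of the class
(`Pool.Agent.H526.FR.free_cls`): the primes between the small and the large ones get one class `t₀`, the other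
classes are arbitrary, and the survivors are counted by a sieve of dimension two
(`Pool.Agent.H526.FR.surv`): apart from few exceptions they are `t₀ ± m l` with `l` a large prime and `m` small, and
`m l` avoids one class modulo each small prime; `t₀` is chosen such that this is a different class from `0` for
almost all the small primes.
-/

set_option autoImplicit false
set_option maxHeartbeats 4000000

open Finset Filter

namespace Pool.Agent.Results.MP_7b323f_nt.FreeResidues

open Pool.Agent.H378R2 Pool.Agent.Q84.MB Pool.Agent.H526.FR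
open Pool.Agent.TH101.RG (V0)

/-- The record scale `f(x) = log x (log₂ x)² log₄ x / (log₃ x)²` (iterated natural logarithms). -/
noncomputable def f (x : ℝ) : ℝ :=
  Real.log x * (Real.log (Real.log x)) ^ 2 * Real.log (Real.log (Real.log (Real.log x))) /
    (Real.log (Real.log (Real.log x))) ^ 2

/-- `exp (log₂ x log₄ x / (50 log₃ x))`, the bound for the small primes. -/
noncomputable def small (x : ℝ) : ℝ :=
  Real.exp (Real.log (Real.log x) * Real.log (Real.log (Real.log (Real.log x))) /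
    (50 * Real.log (Real.log (Real.log x))))

/-- The exceptional sets: at most `(log X) ^ (49 / 50)` elements; with the exception of one number `p₀ > Z`
the elements exceed `(log₂ X)³` and the sum of their inverses is at most `6 / (log₂ X)²`. -/
def Exceptional (X : ℝ) (Z : ℕ) (E : Finset ℕ) : Prop :=
  (E.card : ℝ) ≤ (Real.log X) ^ (49 / 50 : ℝ) ∧ ∃ p₀ : ℕ, Z < p₀ ∧
    (∀ q ∈ E, q ≠ p₀ → (Real.log (Real.log X)) ^ 3 < (q : ℝ)) ∧
    ∑ q ∈ E.erase p₀, (1 : ℝ) / q ≤ 6 / (Real.log (Real.log X)) ^ 2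

/-- The primes modulo which the class is prescribed. -/
def Prescribed (X : ℝ) (A : ℕ) (R E : Finset ℕ) (q : ℕ) : Prop :=
  q.Prime ∧ (q : ℝ) ≤ Real.log X / 1000 ∧ q ∉ E ∧
    ((q : ℝ) ≤ small X ∨ Real.log X < q * (Real.log (Real.log X)) ^ A ∨ q ∈ R)

/-- the comparison of the thresholds -/
theorem ev_small (A K : ℕ) : ∀ᶠ X : ℝ in atTop, 2 * small X ≤ Real.exp (V0 (yy X)) ∧
    (K : ℝ) + 1 ≤ small X ∧ 0 < Real.log X ∧
    (∀ q : ℝ, 0 ≤ q → q * (Real.log (yy X)) ^ (A + 1) ≤ yy X → q * (Real.log (Real.log X)) ^ A ≤ Real.log X) ∧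
    0 < (Real.log (Real.log (Real.log X))) ^ 2 /
      ((Real.log (Real.log X)) ^ 2 * Real.log (Real.log (Real.log (Real.log X)))) := by
  obtain ⟨A₀, hev⟩ := Pool.Agent.H312R2.RG.cov_ev 1 one_pos
  have t1 := Real.tendsto_log_atTop
  have t2 : Tendsto (fun y : ℝ => Real.log (Real.log y)) atTop atTop := t1.comp t1
  have h2 : ∀ᶠ x : ℝ in atTop, 250 * (K + 2) * Real.log x ≤ x := by
    have h := (Real.isLittleO_log_id_atTop).def (show (0 : ℝ) < 1 / (250 * (K + 2)) by positivity)
    filter_upwards [h, eventually_ge_atTop (1 : ℝ)] with x hx h1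
    simp only [id, Real.norm_eq_abs] at hx
    rw [abs_of_nonneg (Real.log_nonneg h1), abs_of_pos (by linarith), one_div, inv_mul_eq_div,
      le_div_iff₀ (by positivity)] at hx
    linarith
  filter_upwards [t2.eventually_ge_atTop A₀, t2.eventually h2, t2.eventually_ge_atTop (2 * 2 ^ A),
    t1.eventually_ge_atTop 2000] with X e1 e2 e3 e4
  set T := Real.log X with hT
  have hT0 : 0 < T := by linarith
  set A' := Real.log T with hA
  obtain ⟨a1, a2, a3, a4, a5, a6, a7, a8, a9⟩ := hev A' e1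
  set B := Real.log A' with hB
  set D' := Real.log B with hD
  have hA0' : 0 < A' := by linarith
  have hB0 : 0 < B := by linarith
  have hD0 : 0 < D' := by linarith
  set y := yy X with hy
  have hyT : (y : ℝ) ≤ T / 1000 := Nat.floor_le (by positivity)
  have hyT2 : T / 2000 ≤ y := by
    have h1 : T / 1000 < (y : ℝ) + 1 := Nat.lt_floor_add_one _
    have h2 : 1 ≤ T / 2000 := by
      rw [le_div_iff₀ (by norm_num)]; linarith
    linarith [show T / 1000 = T / 2000 + T / 2000 by ring]
  have hy0 : (0 : ℝ) < y := by linarith [div_pos hT0 (show (0 : ℝ) < 2000 by norm_num)]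
  have hly1 : Real.log y ≤ A' := by
    rw [hA]; apply Real.log_le_log hy0; linarith
  have hly2 : A' / 2 ≤ Real.log y := by
    have h1 : Real.log (T / 2000) ≤ Real.log y := Real.log_le_log (by positivity) hyT2
    rw [Real.log_div hT0.ne' (by norm_num)] at h1
    linarith
  have hly0 : 0 < Real.log y := by linarith
  have hl2y1 : Real.log (Real.log y) ≤ B := Real.log_le_log hly0 hly1
  have hl2y2 : B / 2 ≤ Real.log (Real.log y) := by
    have h1 : Real.log (A' / 2) ≤ Real.log (Real.log y) := Real.log_le_log (by positivity) hly2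
    rw [Real.log_div hA0'.ne' (by norm_num)] at h1
    linarith
  have hl2y0 : 0 < Real.log (Real.log y) := by linarith
  have hl3y2 : D' / 2 ≤ Real.log (Real.log (Real.log y)) := by
    have h1 : Real.log (B / 2) ≤ Real.log (Real.log (Real.log y)) := Real.log_le_log (by positivity) hl2y2
    rw [Real.log_div hB0.ne' (by norm_num)] at h1
    linarith
  have hl3y0 : 0 < Real.log (Real.log (Real.log y)) := by linarith
  -- the exponent
  have hs : small X = Real.exp (A' * D' / (50 * B)) := rfl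
  obtain ⟨s, hs'⟩ : ∃ s : ℝ, s = A' * D' / (50 * B) := ⟨_, rfl⟩
  rw [← hs'] at hs
  have hsK : 5 * ((K : ℝ) + 2) ≤ s := by
    rw [hs', le_div_iff₀ (by positivity)]
    have h1 : A' * 1 ≤ A' * D' := by gcongr
    linarith [show 5 * ((K : ℝ) + 2) * (50 * B) = 250 * (K + 2) * B by ring]
  have hK0 : (0 : ℝ) ≤ K := Nat.cast_nonneg K
  have hsV : s * (5 / 4) ≤ V0 y := by
    unfold V0
    calc s * (5 / 4) = (A' / 2) * (D' / 2) / (10 * B) := by rw [hs']; field_simp; ring
      _ ≤ Real.log y * Real.log (Real.log (Real.log y)) / (10 * Real.log (Real.log y)) := by gcongr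
  refine ⟨?_, ?_, hT0, ?_, by positivity⟩
  · rw [hs]
    have h1 : 2 ≤ Real.exp 1 := by
      have := Real.add_one_le_exp (1 : ℝ)
      linarith
    calc 2 * Real.exp s ≤ Real.exp 1 * Real.exp s := by gcongr
      _ = Real.exp (1 + s) := (Real.exp_add _ _).symm
      _ ≤ Real.exp (V0 y) := Real.exp_le_exp.2 (by linarith)
  · rw [hs]
    have := Real.add_one_le_exp s
    linarith
  · intro q hq0 hq
    have h1 : (2 : ℝ) ^ A ≤ Real.log y := by linarith
    calc q * A' ^ A ≤ q * (2 * Real.log y) ^ A := by gcongr; linarith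
      _ = q * (2 ^ A * (Real.log y) ^ A) := by rw [mul_pow]
      _ ≤ q * (Real.log y * (Real.log y) ^ A) := by gcongr
      _ = q * (Real.log y) ^ (A + 1) := by ring
      _ ≤ y := hq
      _ ≤ T := by linarith

/-- **Record gaps and clusters of primes with free residues.** -/
theorem result (m A : ℕ) (C : ℝ) : ∃ (K : ℕ) (c : ℝ), 0 < c ∧ ∀ Z : ℕ, ∃ X₀ : ℝ, ∀ X : ℝ, X₀ ≤ X →
    ∃ E : Finset ℕ, Exceptional X Z E ∧ ∀ R : Finset ℕ,
      ∑ q ∈ R, (1 : ℝ) / q ≤ C * ((Real.log (Real.log (Real.log X))) ^ 2 /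
        ((Real.log (Real.log X)) ^ 2 * Real.log (Real.log (Real.log (Real.log X))))) →
      ∀ b : ℕ → ℤ, ∀ T : Finset ℕ, T.card = K → (∀ v ∈ T, (v : ℝ) ≤ small X) →
        (∀ q : ℕ, Prescribed X A R E q → ∀ v ∈ T, ¬ (q : ℤ) ∣ b q + v) →
        ∃ H ⊆ T, m ≤ H.card ∧ X ^ (4 / 5 : ℝ) ≤ ({n : ℕ | X < n ∧ (n : ℝ) ≤ 4 * X ∧
          (∀ q : ℕ, Prescribed X A R E q → (n : ℤ) ≡ b q [ZMOD q]) ∧
          ∀ p : ℕ, |(p : ℝ) - n| ≤ c * f X → (p.Prime ↔ ∃ h ∈ H, p = n + h)}.ncard : ℝ) := by
  classical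
  obtain ⟨K, _, hK1, c₁, _, hc₁, _, hmain⟩ := exact_win m
  obtain ⟨c, hc, hcls⟩ := free_cls (A + 1) (max C 0) c₁ (le_max_right _ _) hc₁
  refine ⟨K, c, hc, fun Z => ?_⟩
  have hlog : ∀ᶠ X : ℝ in atTop, (Real.log X) ^ 2 ≤ X := by
    have h := (Real.isLittleO_pow_log_id_atTop (n := 2)).def (show (0 : ℝ) < 1 by norm_num)
    filter_upwards [h, eventually_ge_atTop (1 : ℝ)] with t ht h1
    simp only [id, Real.norm_eq_abs, abs_of_nonneg (sq_nonneg (Real.log t)),
      abs_of_nonneg (by linarith : (0 : ℝ) ≤ t)] at ht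
    linarith
  obtain ⟨X₀, hX₀⟩ := eventually_atTop.1 (((hmain (Z + 4) (by omega)).and hcls).and
    ((ev_small A K).and ((Pool.Agent.H312R2.RG.ev_ff 1 one_pos).and
    (hlog.and ((eventually_ge_atTop (2 : ℝ)).and
      (Pool.Agent.Q84.MB.vv_tendsto.eventually_ge_atTop 2))))))
  refine ⟨X₀, fun X hX => ?_⟩
  obtain ⟨⟨hm, hc'⟩, ⟨s1, s2, s3, s4, s5⟩, hffX, hlogX, hX2, hvv2⟩ := hX₀ X hX
  obtain ⟨ps, S, hps, hS, hSc, -, hwin⟩ := hm
  -- the exceptional set
  obtain ⟨p₀, hp₀Z, hp₀⟩ : ∃ p₀ : ℕ, Z < p₀ ∧ (ps.Prime → p₀ = ps) := by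
    rcases hps with h | ⟨h1, h2⟩
    · exact ⟨Z + 1, by omega, fun h1 => absurd (h ▸ h1) Nat.not_prime_one⟩
    · exact ⟨ps, by omega, fun _ => rfl⟩
  obtain ⟨E, hE⟩ : ∃ E : Finset ℕ, E = S ∪ (if ps.Prime then {ps} else ∅) := ⟨_, rfl⟩
  have hEmem : ∀ q : ℕ, q.Prime → (q ∉ E ↔ q ∉ S ∧ q ≠ ps) := by
    intro q hq
    rw [hE, mem_union, not_or]
    split_ifs with h
    · rw [mem_singleton]
    · constructor
      · rintro ⟨h1, -⟩
        exact ⟨h1, fun h2 => h (h2 ▸ hq)⟩
      · rintro ⟨h1, -⟩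
        exact ⟨h1, by simp⟩
  have hES : ∀ q ∈ E, q ≠ p₀ → q ∈ S := by
    intro q hq hqp
    rw [hE, mem_union] at hq
    rcases hq with h | h
    · exact h
    · split_ifs at h with h1
      · rw [mem_singleton] at h
        exact absurd (h.trans (hp₀ h1).symm) hqp
      · simp at h
  refine ⟨E, ⟨?_, p₀, hp₀Z, ?_, ?_⟩, ?_⟩
  · have h1 : (E.card : ℝ) ≤ S.card + 1 := by
      have h2 : E.card ≤ S.card + 1 := by
        rw [hE]
        refine (card_union_le _ _).trans (Nat.add_le_add_left ?_ _)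
        split_ifs <;> simp
      exact_mod_cast h2
    have h3 : vv X ^ 196 = (Real.log X) ^ (49 / 50 : ℝ) := by
      unfold vv
      rw [← Real.rpow_natCast, ← Real.rpow_mul s3.le]
      congr 1
      norm_num
    rw [← h3]
    have h4 : (1 : ℝ) ≤ vv X ^ 195 := one_le_pow₀ (by linarith)
    calc (E.card : ℝ) ≤ vv X ^ 195 * 2 := by linarith
      _ ≤ vv X ^ 195 * vv X := by gcongr
      _ = vv X ^ 196 := by ring
  · intro q hq hqp
    have h1 := (hS.1 q (hES q hq hqp)).2.1
    have h2 : ((z2 X : ℕ) : ℝ) < q := by exact_mod_cast h1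
    exact lt_of_le_of_lt (Nat.le_ceil _) h2
  · refine le_trans (sum_le_sum_of_subset_of_nonneg ?_ (fun _ _ _ => by positivity)) hS.2
    intro q hq
    rw [mem_erase] at hq
    exact hES q hq.2 hq.1
  intro R hR b T hTK hTs hTb
  -- the classes modulo the remaining primes
  have hfree : ∀ q : ℕ, q.Prime → K < q → ∃ α : ℕ, ∀ v ∈ T, ¬ (q : ℤ) ∣ (α : ℤ) + v := by
    intro q hq hKq
    obtain ⟨α, hα⟩ := Pool.Agent.H526.IR.class_free K q hq (fun j => T.orderEmbOfFin hTK j) (Or.inl hKq)
    refine ⟨α, fun v hv hd => ?_⟩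
    have h1 : v ∈ Set.range (T.orderEmbOfFin hTK) := by
      rw [range_orderEmbOfFin]
      exact hv
    obtain ⟨j, hj⟩ := h1
    apply hα j
    rw [hj]
    exact_mod_cast hd
  have hbb : ∀ q : ℕ, ∃ β : ℤ, (Prescribed X A R E q → β = b q) ∧
      (q.Prime → (Prescribed X A R E q ∨ K < q) → ∀ v ∈ T, ¬ (q : ℤ) ∣ β + v) := by
    intro q
    by_cases h : Prescribed X A R E q
    · exact ⟨b q, fun _ => rfl, fun _ _ => hTb q h⟩
    · by_cases h1 : q.Prime ∧ K < q
      · obtain ⟨α, hα⟩ := hfree q h1.1 h1.2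
        exact ⟨α, fun h2 => absurd h2 h, fun _ _ => hα⟩
      · refine ⟨0, fun h2 => absurd h2 h, fun h2 h3 => ?_⟩
        rcases h3 with h3 | h3
        · exact absurd h3 h
        · exact absurd ⟨h2, h3⟩ h1
  choose β hβ1 hβ2 using hbb
  obtain ⟨a, W, t0, hcW, hW2, hVc, ht01, ht0, hVW, hρ⟩ := hc' ps S hS (R.filter Nat.Prime)
    (fun q hq => (mem_filter.1 hq).2.pos) (by
      refine le_trans (sum_le_sum_of_subset_of_nonneg (filter_subset _ _) (fun _ _ _ => by positivity)) ?_
      refine hR.trans ?_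
      gcongr
      exact le_max_left _ _) β
  have hfX : f X = Pool.Agent.H256R2.SC.ff X := rfl
  have hff0 : 0 ≤ Pool.Agent.H256R2.SC.ff X := hffX.2.1
  -- the prescribed primes
  have hyv : ((yy X : ℕ) : ℝ) ≤ Real.log X / 1000 := Nat.floor_le (by positivity)
  have hpres : ∀ q : ℕ, Prescribed X A R E q → q ∈ PW X S ps ∧
      rho (A + 1) (yy X) (R.filter Nat.Prime) β t0 q = b q := by
    intro q hq'
    obtain ⟨h1, h2, h3, h4⟩ := id hq'
    obtain ⟨h5, h6⟩ := (hEmem q h1).1 h3
    refine ⟨mem_PW.2 ⟨Nat.le_floor h2, h1, h5, h6⟩, ?_⟩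
    unfold rho
    rw [if_neg, hβ1 q hq']
    rintro ⟨h7, h8, h9⟩
    have hq0 : (0 : ℝ) < q := by exact_mod_cast h1.pos
    rcases h4 with h4 | h4 | h4
    · have h10 : Real.exp (V0 (yy X)) < q := (Real.lt_log_iff_exp_lt hq0).1 h7
      have h11 : 0 < small X := Real.exp_pos _
      linarith
    · exact absurd (s4 q hq0.le h8) (not_le.2 h4)
    · exact h9 (mem_filter.2 ⟨h4, h1⟩)
  -- the members of the cluster survive
  have hcop : ∀ v ∈ T, ∀ q ∈ PW X S ps, ¬ (q : ℤ) ∣ (a : ℤ) + W + v := by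
    intro v hv q hq hd
    obtain ⟨h1, h2, h3, h4⟩ := mem_PW.1 hq
    have hq0 : (0 : ℝ) < q := by exact_mod_cast h2.pos
    have h5 := hρ q hq
    have h6 : (q : ℤ) ∣ rho (A + 1) (yy X) (R.filter Nat.Prime) β t0 q + v := by
      have h7 := dvd_sub hd h5
      have e : (a : ℤ) + W + v - (a + W - rho (A + 1) (yy X) (R.filter Nat.Prime) β t0 q) =
          rho (A + 1) (yy X) (R.filter Nat.Prime) β t0 q + v := by ring
      rwa [e] at h7
    unfold rho at h6
    split_ifs at h6 with h7
    · have h8 : Real.exp (V0 (yy X)) < q := (Real.lt_log_iff_exp_lt hq0).1 h7.1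
      have h9 := hTs v hv
      have h10 : ((t0 + v : ℕ) : ℝ) < q := by
        push_cast
        have := Real.exp_pos (V0 (yy X))
        linarith
      have h11 : t0 + v < q := by exact_mod_cast h10
      have h12 : q ∣ t0 + v := by exact_mod_cast h6
      exact absurd (Nat.le_of_dvd (by omega) h12) (by omega)
    · refine hβ2 q h2 ?_ v hv h6
      by_cases h8 : (q : ℝ) ≤ small X
      · left
        refine ⟨h2, ?_, (hEmem q h2).2 ⟨h3, h4⟩, Or.inl h8⟩
        have : (q : ℝ) ≤ ((yy X : ℕ) : ℝ) := by exact_mod_cast h1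
        linarith
      · right
        rw [not_le] at h8
        have h9 : (K : ℝ) < q := by linarith
        exact_mod_cast h9
  have hsW : ∀ v ∈ T, v ≤ W := by
    intro v hv
    have h1 := hTs v hv
    have h2 : 0 < small X := Real.exp_pos _
    have h3 : (v : ℝ) ≤ W := by linarith
    exact_mod_cast h3
  obtain ⟨T', hT'⟩ : ∃ T' : Finset ℕ, T' = T.image (fun v => v + W) := ⟨_, rfl⟩
  have hT'card : T'.card = K := by
    rw [hT', card_image_of_injective _ (fun x y h => by simpa using h), hTK]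
  have hT'V : T' ⊆ VS (WW X S ps) a (2 * W) := by
    intro v' hv'
    rw [hT', mem_image] at hv'
    obtain ⟨v, hv, rfl⟩ := hv'
    unfold VS
    rw [mem_filter, mem_range]
    have := hsW v hv
    refine ⟨by omega, ?_⟩
    unfold WW
    rw [Nat.coprime_prod_right_iff]
    intro p hp
    have hpp := (mem_PW.1 hp).2.1
    rw [Nat.coprime_comm, Nat.Prime.coprime_iff_not_dvd hpp]
    intro hdv
    apply hcop v hv p hp
    have h1 : (p : ℤ) ∣ ((a + (v + W) : ℕ) : ℤ) := Int.natCast_dvd_natCast.2 hdv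
    have e : (a : ℤ) + W + v = ((a + (v + W) : ℕ) : ℤ) := by
      push_cast
      ring
    rw [e]
    exact h1
  obtain ⟨H', hHT', hmH', hHcard⟩ := hwin a (2 * W) hW2 hVc T' hT'V hT'card
  obtain ⟨H, hH⟩ : ∃ H : Finset ℕ, H = T.filter (fun v => v + W ∈ H') := ⟨_, rfl⟩
  have hHH' : ∀ u : ℕ, u ∈ H' ↔ ∃ h ∈ H, u = h + W := by
    intro u
    constructor
    · intro hu
      have h1 := hHT' hu
      rw [hT', mem_image] at h1
      obtain ⟨v, hv, rfl⟩ := h1
      exact ⟨v, by rw [hH, mem_filter]; exact ⟨hv, hu⟩, rfl⟩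
    · rintro ⟨h, hh, rfl⟩
      rw [hH, mem_filter] at hh
      exact hh.2
  refine ⟨H, by rw [hH]; exact filter_subset _ _, ?_, ?_⟩
  · refine hmH'.trans ?_
    have h1 : H' ⊆ H.image (fun v => v + W) := by
      intro u hu
      obtain ⟨h, hh, rfl⟩ := (hHH' u).1 hu
      exact mem_image_of_mem _ hh
    exact (card_le_card h1).trans card_image_le
  refine hHcard.trans ?_
  have hfin : {n : ℕ | X < n ∧ (n : ℝ) ≤ 4 * X ∧
          (∀ q : ℕ, Prescribed X A R E q → (n : ℤ) ≡ b q [ZMOD q]) ∧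
          ∀ p : ℕ, |(p : ℝ) - n| ≤ c * f X → (p.Prime ↔ ∃ h ∈ H, p = n + h)}.Finite := by
    apply (Set.finite_Iic ⌊4 * X⌋₊).subset
    intro n hn
    exact Set.mem_Iic.2 (Nat.le_floor hn.2.1)
  have hinj : Function.Injective (fun n : ℕ => n + W) := fun x y h => by simpa using h
  rw [← Set.ncard_coe_finset, ← Set.ncard_image_of_injective _ hinj]
  apply Nat.cast_le.2
  apply Set.ncard_le_ncard _ hfin
  rintro z ⟨n, hn, hz⟩
  obtain rfl : z = n + W := hz.symm
  rw [Finset.mem_coe] at hn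
  unfold RS at hn
  rw [mem_filter, mem_Icc] at hn
  obtain ⟨⟨hn1, hn3⟩, hXn, hna, hex⟩ := hn
  have hn3' : (n : ℝ) ≤ 3 * X := (Nat.le_floor_iff (by linarith)).1 hn3
  refine ⟨?_, ?_, ?_, ?_⟩
  · push_cast
    have : (0 : ℝ) ≤ W := Nat.cast_nonneg W
    linarith
  · push_cast
    have h1 : 2 * (W : ℝ) ≤ (Real.log X) ^ 2 := by
      have := hW2
      push_cast at this
      exact this
    have h2 : (0 : ℝ) ≤ W := Nat.cast_nonneg W
    linarith
  · intro q hq
    obtain ⟨h1, h2⟩ := hpres q hq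
    have h3 := hρ q h1
    rw [h2] at h3
    have h4 : n ≡ a [MOD q] := hna.of_dvd ((prime_dvd_WW (mem_PW.1 h1).2.1).2 h1)
    have h5 : (q : ℤ) ∣ (n : ℤ) - a := Nat.modEq_iff_dvd.1 h4.symm
    have h6 := dvd_add h5 h3
    have e : (n : ℤ) - a + (a + W - b q) = ((n + W : ℕ) : ℤ) - b q := by
      push_cast
      ring
    rw [e] at h6
    exact (Int.modEq_iff_dvd.2 h6).symm
  · intro p hp
    have h1 : |(p : ℝ) - ((n + W : ℕ) : ℝ)| ≤ W := by
      refine hp.trans ?_
      rw [hfX]
      exact hcW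
    rw [abs_le] at h1
    push_cast at h1
    have h2 : (n : ℝ) ≤ p := by linarith [h1.1]
    have h2' : n ≤ p := by exact_mod_cast h2
    obtain ⟨v, rfl⟩ := Nat.exists_eq_add_of_le h2'
    have h3 : (v : ℝ) ≤ ((2 * W : ℕ) : ℝ) := by
      have := h1.2
      push_cast at this ⊢
      linarith
    rw [hex v (by exact_mod_cast h3), hHH' v]
    constructor
    · rintro ⟨h, hh, rfl⟩
      exact ⟨h, hh, by ring⟩
    · rintro ⟨h, hh, h4⟩
      exact ⟨h, hh, by omega⟩

end Pool.Agent.Results.MP_7b323f_nt.FreeResidues
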