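import Pool.Agent.H559.GP.Fin

set_option autoImplicit false

/-!
# Large gaps between the prime values of all polynomials and systems of polynomials, in the random sieve model

For every prime `q` a residue class `a q` modulo `q` is drawn uniformly and independently. The random primes are the
integers `v ≥ 3` which are, for all primes `q ≤ z v`, not in the class `0` modulo `q` if `q ≤ (log v) ^ c`, and not in the
class `a q` modulo `q` if `q > (log v) ^ c`. This is the model of Banks, Ford and Tao (*Large prime gaps and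
probabilistic models*) in which the small primes sieve out the class `0` as they do for the true primes. The sieving
limit `z` is any nondecreasing function for which `∏_{q ≤ z v} (1 - 1 / q)` is asymptotic to `1 / log v`; the choice `zBFT`
of Banks, Ford and Tao is one of them. The exponent `c` is any number larger than `1`.

Let `F` be a system, that is, a nonempty finite set of irreducible nonconstant integer polynomials with positive leading
coefficients without a fixed prime divisor. A place of `F` is an integer `m` for which all the `|f m|`, `f ∈ F`, are random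
primes. The length `unit F x = ∏ (deg f · log x) / C F`, with the constant `C F` of Bateman and Horn, is the mean distance
between the places of `F` near `x`; it is of the order `(log x) ^ |F|`.

The theorem: almost surely, for EVERY system `F` and all `0 < lam`, `0 < ε` with `lam + ε < 1`, for all large `X` there are at
least `X ^ (1 - lam - ε)` integers `n ≤ X` without a place of `F` in the window `(n, n + lam · unit F X · log X]`; and for
every `lam < 1` and all large `X` there are two consecutive places `m < m'` of `F` with `m ≤ X` and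
`m' - m ≥ lam · unit F X · log X`.

So the largest gap up to `X` is at least `(1 - o(1)) unit F X log X`, the value which the heuristic of Cramér predicts:
`(1 - o(1)) log² X` for the primes themselves, `(2 / C - o(1)) log² X` for the `m` with `m ^ 2 + 1` prime, and a growth exponent at
least `|F| + 1` for every system `F`.
-/

open MeasureTheory ProbabilityTheory Filter Topology Polynomial

namespace Pool.Agent.Results.MP_7b323f_nt.LargeGapsOfAllSystems

/-- `V m = ∏ (1 - 1 / q)` over the primes `q ≤ m` -/
noncomputable def V (m : ℕ) : ℝ := ∏ q ∈ (Finset.range (m + 1)).filter Nat.Prime, (1 - 1 / (q : ℝ))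

/-- the classes `a q` are independent, and `a q` is uniform on `0, …, q - 1` for every prime `q` -/
structure Model {Ω : Type} [MeasurableSpace Ω] (P : Measure Ω) (a : ℕ → Ω → ℕ) : Prop where
  measurable : ∀ q, Measurable (a q)
  independent : iIndepFun a P
  uniform : ∀ q, q.Prime → ∀ r < q, P.real {ω | a q ω = r} = 1 / q

/-- the sieving limit of Banks, Ford and Tao: the largest `m` with `∏_{q ≤ m} (1 - 1 / q)⁻¹ ≤ log n` -/
noncomputable def zBFT (n : ℕ) : ℕ := sSup {m : ℕ | (V m)⁻¹ ≤ Real.log n}

/-- the admissible sieving limits: the density of the random primes near `v` is asymptotic to `1 / log v` -/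
def Limit (z : ℕ → ℕ) : Prop := Monotone z ∧ Tendsto (fun v => V (z v) * Real.log v) atTop (𝓝 1)

open Classical in
/-- the set of the random primes of a sample -/
def R {Ω : Type} (z : ℕ → ℕ) (c : ℝ) (a : ℕ → Ω → ℕ) (ω : Ω) : Set ℕ :=
  {v | 3 ≤ v ∧ ∀ q ≤ z v, q.Prime → v % q ≠ if (q : ℝ) ≤ Real.log v ^ c then 0 else a q ω}

/-- `ω_F(p)`: the number of the `n` modulo `p` with `∏ f n = 0` modulo `p` -/
def omega (F : Finset ℤ[X]) (p : ℕ) : ℕ :=
  ((Finset.range p).filter fun n : ℕ => (p : ℤ) ∣ ∏ f ∈ F, f.eval (n : ℤ)).card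

/-- the partial products of `C_F` -/
noncomputable def partialC (F : Finset ℤ[X]) (x : ℕ) : ℝ :=
  ∏ p ∈ (Finset.range (x + 1)).filter Nat.Prime, (1 - (omega F p : ℝ) / p) / (1 - 1 / (p : ℝ)) ^ F.card

/-- the systems: finitely many irreducible nonconstant polynomials with positive leading coefficients, without a fixed
prime divisor -/
def System (F : Finset ℤ[X]) : Prop :=
  F.Nonempty ∧ (∀ f ∈ F, Irreducible f ∧ 0 < f.natDegree ∧ 0 < f.leadingCoeff) ∧ ∀ p : ℕ, p.Prime → omega F p < p

/-- the mean distance of the places near `x` -/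
noncomputable def unit (C : Finset ℤ[X] → ℝ) (F : Finset ℤ[X]) (x : ℕ) : ℝ :=
  (∏ f ∈ F, (f.natDegree : ℝ) * Real.log x) / C F

/-- `m` is a place of `F`: all the values of `F` at `m` are in `A` -/
def Place (A : Set ℕ) (F : Finset ℤ[X]) (m : ℕ) : Prop := ∀ f ∈ F, (f.eval (m : ℤ)).natAbs ∈ A

theorem result :
    (∃ (Ω : Type) (_ : MeasurableSpace Ω) (P : Measure Ω) (a : ℕ → Ω → ℕ), Model P a) ∧ Limit zBFT ∧
    ∃ C : Finset ℤ[X] → ℝ, (∀ F, System F → Tendsto (partialC F) atTop (𝓝 (C F)) ∧ 0 < C F) ∧
      ∀ z : ℕ → ℕ, Limit z → ∀ c : ℝ, 1 < c →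
        ∀ (Ω : Type) [MeasurableSpace Ω] (P : Measure Ω) (a : ℕ → Ω → ℕ), Model P a →
          ∀ᵐ ω ∂P, ∀ F : Finset ℤ[X], System F →
            (∀ lam ε : ℝ, 0 < lam → 0 < ε → lam + ε < 1 → ∀ᶠ X : ℕ in atTop,
              (X : ℝ) ^ (1 - lam - ε) ≤ ({n : ℕ | 1 ≤ n ∧ n ≤ X ∧ ∀ m : ℕ, n < m →
                (m : ℝ) ≤ n + lam * unit C F X * Real.log X → ¬ Place (R z c a ω) F m}.ncard : ℝ)) ∧
            ∀ lam : ℝ, lam < 1 → ∀ᶠ X : ℕ in atTop, ∃ m m' : ℕ, m < m' ∧ m ≤ X ∧ Place (R z c a ω) F m ∧
              Place (R z c a ω) F m' ∧ (∀ u, m < u → u < m' → ¬ Place (R z c a ω) F u) ∧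
              lam * unit C F X * Real.log X ≤ (m' : ℝ) - m := by
  classical
  have hGP : ∀ F, System F → ∀ f ∈ F, Pool.Agent.H559.PV.GP f := fun F hF f hf =>
    ⟨(hF.2.1 f hf).1, (hF.2.1 f hf).2.1, (hF.2.1 f hf).2.2⟩
  have hsys : ∀ F, System F → Pool.Agent.H559.HY.Sys F := fun F hF => Pool.Agent.H559.PV.sys_of F (hGP F hF)
  refine ⟨?_, ⟨Pool.Agent.T2H32.BF.z0_mono, Pool.Agent.T2H32.BF.z0_lim⟩, ?_⟩
  · obtain ⟨Ω, i, P, a, h⟩ := Pool.Agent.T2H32.BF.exists_model
    exact ⟨Ω, i, P, a, h.measurable, h.independent, h.uniform⟩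
  · refine ⟨fun F => if h : System F then (Pool.Agent.H559.PV.CF_conv' F (hsys F h)).choose else 0, fun F hF => ?_, ?_⟩
    · simp only [hF, dite_true]
      exact ⟨(Pool.Agent.H559.PV.CF_conv' F (hsys F hF)).choose_spec.1,
        (Pool.Agent.H559.PV.CF_conv' F (hsys F hF)).choose_spec.2 hF.2.2⟩
    · intro z hz c hc Ω _ P a hmod
      have h : Pool.Agent.T2H32.BF.Model P a := ⟨hmod.measurable, hmod.independent, hmod.uniform⟩
      filter_upwards [Pool.Agent.H559.HY.ae_OK h z (Pool.Agent.H559.HY.WW c) hz (Pool.Agent.H559.HY.cut_WW c hc),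
        Pool.Agent.H559.GP.allF h z (Pool.Agent.H559.HY.WW c) hz (Pool.Agent.H559.HY.cut_WW c hc)] with ω hω1 hω2 F hF
      have e : R z c a ω = Pool.Agent.H559.HY.RS z (Pool.Agent.H559.HY.WW c) (fun p => a p ω) := by
        ext v
        simp only [R, Pool.Agent.H559.HY.RS, Set.mem_ofPred_eq]
        refine and_congr_right fun hv => ?_
        refine forall_congr' fun q => forall_congr' fun _ => forall_congr' fun _ => ?_
        have h0 : 0 ≤ Real.log v ^ c := Real.rpow_nonneg (Real.log_nonneg (by
          have : 1 ≤ v := by omega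
          exact_mod_cast this)) c
        have h1 : (q : ℝ) ≤ Real.log v ^ c ↔ q ≤ Pool.Agent.H559.HY.WW c v := (Nat.le_floor_iff h0).symm
        by_cases h2 : (q : ℝ) ≤ Real.log v ^ c
        · rw [if_pos h2, if_pos (h1.1 h2)]
        · rw [if_neg h2, if_neg (fun h3 => h2 (h1.2 h3))]
      rw [e]
      simp only [unit, hF, dite_true]
      have hC := (Pool.Agent.H559.PV.CF_conv' F (hsys F hF)).choose_spec.1
      have hC0 := (Pool.Agent.H559.PV.CF_conv' F (hsys F hF)).choose_spec.2 hF.2.2
      set S := (Pool.Agent.H559.PV.CF_conv' F (hsys F hF)).choose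
      have h1 := hω2 F (hGP F hF) hF.1 S hC hC0
      refine ⟨fun lam ε h2 h3 h4 => h1 lam ε h2 h3 h4, fun lam h2 => ?_⟩
      exact Pool.Agent.H559.GP.consec _ F (Pool.Agent.H559.GP.inf_places z hz c hc _ hω1 F (hGP F hF) S hC hC0) S hC0 h1 lam h2

end Pool.Agent.Results.MP_7b323f_nt.LargeGapsOfAllSystems
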