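import Pool.Agent.H453.LP.Half

/-!
# How much independence gives the growth exponent two?

In Cramér's random model for the primes the integers `n ≥ 3` are elements of a random set `A` with probability
`1 / log n`, independently; the largest gap up to `X` is `(log X) ^ (2 + o(1))`, in accordance with the question.
`IsRandomSet P k X E` says that only any at most `k` of the events `E n = {n ∈ A}`, `3 ≤ n ≤ X`, are independent, with
`P(n ∈ A) = 1 / log n` (this is the information in the correlations of order `k`).  `HasGap E X H ω` says that there are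
consecutive elements `a < b ≤ X` of the set with `b - a ≥ H`.  Let `G(X)` be the largest gap up to `X`.

(1) Let `k(X)` be an arbitrary function.  With probability `1 - o(1)`, uniformly in ALL random sets with independence of order
`k(X)` up to `X`, and for every `ε > 0`,
* the upper half of the question, `G(X) < (log X) ^ (2 + ε)`, holds if and only if `k(X) log log X / log X → ∞`;
* the lower half, `G(X) ≥ (log X) ^ (2 - ε)`, holds if and only if `k(X) ≥ (log X) ^ (1 - o(1))`;
* both halves hold if and only if `k(X) log log X / log X → ∞`.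

(2) The largest exponent.  Independence of order `k ≥ c log X / log log X` implies
`(log X) ^ (2 - ε) ≤ G(X) < (log X) ^ (2 + 2 / c + ε)` with probability at least `1 - X ^ (-δ)`, and for
`k ≤ c log X / log log X` there is a random set with independence of order `k` with
`G(X) ≥ (log X) ^ (2 + 2 / c - ε)` with probability at least `1 - X ^ (-1 / 3)`.

(3) The smallest exponent.  Independence of order `k ≥ (log X) ^ β`, `0 < β ≤ 1`, implies `G(X) ≥ (log X) ^ (1 + β - ε)` with
probability at least `1 - exp (- (log X) ^ β / 8)`, and for `k ≤ (log X) ^ β` there is a random set with independence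
of order `k` with `G(X) < (log X) ^ (1 + β + ε)` almost surely.

The proof.  The upper bound comes from the moment inequality of the library (`Pool.Agent.Q51.LI.gap_moment`).  The lower bounds
come from the partial sums of inclusion and exclusion, as in the library (`Pool.Agent.Q51.LI.void_near`, `second_moment`),
but for shorter windows, whose void probability is much larger than the error term which the order `k` allows.  The random
sets in (2) are glued from independent windows with the largest void probability, which the library constructs by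
quadrature (`Q198.CI.dyadic_model`).  Those in (3) are glued from windows of `k + 1` groups of `⌈log X⌉` integers; a law
of order `k` on such a window which is never void arises from Cramér's law by a factor `1 - ∏ φ_j`, where `φ_j` is a function of
the elements in the group `j` with mean zero, `|φ_j| ≤ 1` and `∏ φ_j = 1` for the void set (up to the sign).
-/

set_option autoImplicit false

namespace Pool.Agent.Results.MP_7b323f_nt.LimitedIndependence

open MeasureTheory Filter
open Pool.Agent.Q51.LI (IsRandomSet HasGap)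

/-- **The growth exponent of the largest gap in Cramér's model with limited independence.** -/
theorem result :
    -- (1) the orders that imply the upper half, the lower half, and both
    (∀ k : ℕ → ℕ,
      ((∀ ε : ℝ, 0 < ε → ∀ δ : ℝ, 0 < δ → ∀ᶠ X : ℕ in atTop,
          ∀ (Ω : Type) (_ : MeasurableSpace Ω) (P : Measure Ω), IsProbabilityMeasure P → ∀ E : ℕ → Set Ω,
            IsRandomSet P (k X) X E → P.real {ω | HasGap E X (Real.log X ^ (2 + ε)) ω} ≤ δ) ↔
        Tendsto (fun X : ℕ => (k X : ℝ) * Real.log (Real.log X) / Real.log X) atTop atTop) ∧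
      ((∀ ε : ℝ, 0 < ε → ∀ δ : ℝ, 0 < δ → ∀ᶠ X : ℕ in atTop,
          ∀ (Ω : Type) (_ : MeasurableSpace Ω) (P : Measure Ω), IsProbabilityMeasure P → ∀ E : ℕ → Set Ω,
            IsRandomSet P (k X) X E → P.real {ω | ¬ HasGap E X (Real.log X ^ (2 - ε)) ω} ≤ δ) ↔
        ∀ ε : ℝ, 0 < ε → ∀ᶠ X : ℕ in atTop, Real.log X ^ (1 - ε) ≤ k X) ∧
      ((∀ ε : ℝ, 0 < ε → ∀ δ : ℝ, 0 < δ → ∀ᶠ X : ℕ in atTop,
          ∀ (Ω : Type) (_ : MeasurableSpace Ω) (P : Measure Ω), IsProbabilityMeasure P → ∀ E : ℕ → Set Ω,
            IsRandomSet P (k X) X E →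
              P.real {ω | HasGap E X (Real.log X ^ (2 + ε)) ω ∨ ¬ HasGap E X (Real.log X ^ (2 - ε)) ω} ≤ δ) ↔
        Tendsto (fun X : ℕ => (k X : ℝ) * Real.log (Real.log X) / Real.log X) atTop atTop)) ∧
    -- (2) the largest exponent
    (∀ c ε : ℝ, 0 < c → 0 < ε →
      (∃ δ : ℝ, 0 < δ ∧ ∀ᶠ X : ℕ in atTop,
        ∀ (Ω : Type) (_ : MeasurableSpace Ω) (P : Measure Ω), IsProbabilityMeasure P →
          ∀ (E : ℕ → Set Ω) (k : ℕ), IsRandomSet P k X E → c * Real.log X / Real.log (Real.log X) ≤ k →
            P.real {ω | HasGap E X (Real.log X ^ (2 + 2 / c + ε)) ω ∨ ¬ HasGap E X (Real.log X ^ (2 - ε)) ω} ≤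
              (X : ℝ) ^ (-δ)) ∧
      ∀ᶠ X : ℕ in atTop, ∀ k : ℕ, (k : ℝ) ≤ c * Real.log X / Real.log (Real.log X) →
        ∃ (Ω : Type) (_ : MeasurableSpace Ω) (P : Measure Ω) (E : ℕ → Set Ω), IsProbabilityMeasure P ∧
          (∀ Y, IsRandomSet P k Y E) ∧
          P.real {ω | ¬ HasGap E X (Real.log X ^ (2 + 2 / c - ε)) ω} ≤ (X : ℝ) ^ (-(1 / 3) : ℝ)) ∧
    -- (3) the smallest exponent
    (∀ β ε : ℝ, 0 < β → β ≤ 1 → 0 < ε → ∀ᶠ X : ℕ in atTop,
      ∀ (Ω : Type) (_ : MeasurableSpace Ω) (P : Measure Ω), IsProbabilityMeasure P →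
        ∀ (E : ℕ → Set Ω) (k : ℕ), IsRandomSet P k X E → Real.log X ^ β ≤ k →
          P.real {ω | ¬ HasGap E X (Real.log X ^ (1 + β - ε)) ω} ≤ Real.exp (-(Real.log X ^ β / 8))) ∧
    ∀ β ε : ℝ, 0 ≤ β → 0 < ε → ∀ᶠ X : ℕ in atTop, ∀ k : ℕ, (k : ℝ) ≤ Real.log X ^ β →
      ∃ (Ω : Type) (_ : MeasurableSpace Ω) (P : Measure Ω) (E : ℕ → Set Ω), IsProbabilityMeasure P ∧
        (∀ Y, IsRandomSet P k Y E) ∧ P.real {ω | HasGap E X (Real.log X ^ (1 + β + ε)) ω} = 0 :=
  ⟨fun k => ⟨Pool.Agent.H453.LP.upper_half k, Pool.Agent.H453.LP.lower_half k, Pool.Agent.H453.LP.threshold k⟩,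
    fun c ε hc hε => ⟨Pool.Agent.H453.LP.two_sided c ε hc hε, Pool.Agent.H453.LP.sharp c ε hc hε⟩,
    Pool.Agent.H453.LP.low_beta, Pool.Agent.H453.LP.small_beta⟩

end Pool.Agent.Results.MP_7b323f_nt.LimitedIndependence
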